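import Pool.Agent.H852R2.DM.Defs

set_option autoImplicit false

namespace DM852
open RC14 RC852 Finset Filter Equiv

namespace SHRINK

lemma app_inv {n : ℕ} (f : Perm (Fin n)) (x : Fin n) : f (f⁻¹ x) = x := f.apply_symm_apply x

/-! ### commutators -/

lemma comm_iff {n : ℕ} (s r : Perm (Fin n)) (p : Fin n) :
    (s⁻¹ * r⁻¹ * s * r) p = p ↔ s (r p) = r (s p) := by
  simp only [Perm.mul_apply]
  rw [Perm.inv_eq_iff_eq, Perm.inv_eq_iff_eq]

lemma comm_upper {n : ℕ} (s r : Perm (Fin n)) :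
    (s⁻¹ * r⁻¹ * s * r).support.card ≤ 3 * (s.support ∩ r.support).card := by
  classical
  set X := s.support ∩ r.support with hX
  have hsub : (s⁻¹ * r⁻¹ * s * r).support ⊆ X ∪ X.image (⇑s⁻¹) ∪ X.image (⇑r⁻¹) := by
    intro p hp
    rw [Perm.mem_support, ne_eq, comm_iff] at hp
    by_contra hcon
    rw [mem_union, mem_union, not_or, not_or] at hcon
    obtain ⟨⟨h1, h2⟩, h3⟩ := hcon
    have h2' : s p ∉ X := fun h => h2 (mem_image.mpr ⟨s p, h, by simp⟩)
    have h3' : r p ∉ X := fun h => h3 (mem_image.mpr ⟨r p, h, by simp⟩)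
    apply hp
    by_cases hA : p ∈ s.support
    · have hB : p ∉ r.support := fun h => h1 (by rw [hX, mem_inter]; exact ⟨hA, h⟩)
      have hrp : r p = p := Perm.notMem_support.mp hB
      have hsp : s p ∈ s.support := Perm.apply_mem_support.mpr hA
      have hsp2 : s p ∉ r.support := fun h => h2' (by rw [hX, mem_inter]; exact ⟨hsp, h⟩)
      rw [hrp, Perm.notMem_support.mp hsp2]
    · have hsp : s p = p := Perm.notMem_support.mp hA
      rw [hsp]
      by_cases hB : p ∈ r.support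
      · have hrp : r p ∈ r.support := Perm.apply_mem_support.mpr hB
        have hrp2 : r p ∉ s.support := fun h => h3' (by rw [hX, mem_inter]; exact ⟨h, hrp⟩)
        exact Perm.notMem_support.mp hrp2
      · rw [Perm.notMem_support.mp hB, hsp]
  calc (s⁻¹ * r⁻¹ * s * r).support.card ≤ (X ∪ X.image (⇑s⁻¹) ∪ X.image (⇑r⁻¹)).card :=
        card_le_card hsub
    _ ≤ (X ∪ X.image (⇑s⁻¹)).card + (X.image (⇑r⁻¹)).card := card_union_le _ _
    _ ≤ (X.card + (X.image (⇑s⁻¹)).card) + (X.image (⇑r⁻¹)).card := by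
        have := card_union_le X (X.image (⇑s⁻¹))
        omega
    _ ≤ 3 * X.card := by
        have h1 := card_image_le (s := X) (f := (⇑s⁻¹))
        have h2 := card_image_le (s := X) (f := (⇑r⁻¹))
        omega

lemma comm_lower {n : ℕ} (s r : Perm (Fin n)) :
    ((s.support ∩ r.support).filter (fun q => s⁻¹ q ∉ r.support)).card ≤
      (s⁻¹ * r⁻¹ * s * r).support.card := by
  refine card_le_card_of_injOn (fun q => s⁻¹ q) ?_ (fun a _ b _ h => (s⁻¹).injective h)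
  intro q hq
  rw [mem_coe, mem_filter, mem_inter] at hq
  obtain ⟨⟨_, h2⟩, h3⟩ := hq
  rw [mem_coe, Perm.mem_support, ne_eq, comm_iff]
  simp only
  rw [Perm.notMem_support.mp h3, app_inv]
  exact fun h => (Perm.mem_support.mp h2) h.symm

/-! ### averages -/

/-- indicator of `g v b = q`, `x = (q, b)` -/
noncomputable def e {n : ℕ} {K : Type} (g : K → Perm (Fin n)) (x : Fin n × Fin n) (v : K) : ℝ :=
  if g v x.2 = x.1 then 1 else 0

lemma e_nonneg {n : ℕ} {K : Type} (g : K → Perm (Fin n)) (x : Fin n × Fin n) (v : K) :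
    0 ≤ e g x v := by
  unfold e; split_ifs <;> norm_num

lemma e_mul {n : ℕ} {K : Type} (g : K → Perm (Fin n)) (x y : Fin n × Fin n) (v : K) :
    e g x v * e g y v = if g v x.2 = x.1 ∧ g v y.2 = y.1 then 1 else 0 := by
  unfold e
  by_cases h1 : g v x.2 = x.1 <;> by_cases h2 : g v y.2 = y.1 <;> simp [h1, h2]

variable {n : ℕ} {K : Type} [Fintype K]

lemma sum_mul_eq (g : K → Perm (Fin n)) (x y : Fin n × Fin n) :
    ∑ v, e g x v * e g y v = (#{v | g v x.2 = x.1 ∧ g v y.2 = y.1} : ℝ) := by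
  rw [Finset.sum_congr rfl fun v _ => e_mul g x y v, Finset.sum_boole]

lemma N2 (hn : 2 ≤ n) {g : K → Perm (Fin n)} (hg : Mix2 g) (x y : Fin n × Fin n)
    (h1 : x.1 ≠ y.1) (h2 : x.2 ≠ y.2) :
    (1 - 1 / (n : ℝ)) * Fintype.card K / (n * (n - 1)) ≤ ∑ v, e g x v * e g y v ∧
    ∑ v, e g x v * e g y v ≤ (1 + 1 / (n : ℝ)) * Fintype.card K / (n * (n - 1)) := by
  have h := hg x.2 y.2 x.1 y.1 h2 h1
  rw [abs_le] at h
  have hn' : (2 : ℝ) ≤ n := by exact_mod_cast hn
  have hpos : (0 : ℝ) < n * (n - 1) := by nlinarith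
  rw [sum_mul_eq]
  constructor
  · rw [div_le_iff₀ hpos]; linarith [h.1]
  · rw [le_div_iff₀ hpos]; linarith [h.2]

lemma N1 (hn : 2 ≤ n) {g : K → Perm (Fin n)} (hg : Mix2 g) (x : Fin n × Fin n) :
    (1 - 1 / (n : ℝ)) * Fintype.card K / n ≤ ∑ v, e g x v ∧
    ∑ v, e g x v ≤ (1 + 1 / (n : ℝ)) * Fintype.card K / n := by
  classical
  have hn' : (2 : ℝ) ≤ n := by exact_mod_cast hn
  have hnt : Nontrivial (Fin n) := Fin.nontrivial_iff_two_le.mpr hn
  obtain ⟨b2, hb2⟩ := exists_ne x.2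
  have key : ∀ v, e g x v = ∑ c ∈ univ.erase x.1, e g x v * e g (c, b2) v := by
    intro v
    rw [← Finset.mul_sum]
    by_cases h : g v x.2 = x.1
    · have h1 : ∑ c ∈ univ.erase x.1, e g (c, b2) v = 1 := by
        rw [Finset.sum_eq_single (g v b2)]
        · simp [e]
        · intro c _ hc
          simp only [e]
          rw [if_neg (Ne.symm hc)]
        · intro hc
          exfalso
          apply hc
          rw [mem_erase]
          refine ⟨?_, mem_univ _⟩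
          rw [← h]
          exact fun h2 => hb2 ((g v).injective h2)
      rw [h1, mul_one]
    · have : e g x v = 0 := by simp [e, h]
      rw [this, zero_mul]
  have h2 : ∑ v, e g x v = ∑ c ∈ univ.erase x.1, ∑ v, e g x v * e g (c, b2) v := by
    rw [Finset.sum_comm]
    exact Finset.sum_congr rfl fun v _ => key v
  have hcard : ((univ.erase x.1).card : ℝ) = n - 1 := by
    rw [card_erase_of_mem (mem_univ _), card_univ, Fintype.card_fin, Nat.cast_sub (by omega)]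
    norm_num
  have hb : ∀ c ∈ univ.erase x.1, _ := fun c hc =>
    N2 hn hg x (c, b2) (Ne.symm (mem_erase.mp hc).1) (Ne.symm hb2)
  have hn1 : (n : ℝ) - 1 ≠ 0 := by
    have : (0 : ℝ) < n - 1 := by linarith
    exact this.ne'
  constructor
  · have h3 := Finset.card_nsmul_le_sum (univ.erase x.1) _ _ (fun c hc => (hb c hc).1)
    rw [nsmul_eq_mul, hcard] at h3
    rw [h2]
    refine le_trans (le_of_eq ?_) h3
    field_simp
  · have h3 := Finset.sum_le_card_nsmul (univ.erase x.1) _ _ (fun c hc => (hb c hc).2)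
    rw [nsmul_eq_mul, hcard] at h3
    rw [h2]
    refine le_trans h3 (le_of_eq ?_)
    field_simp

lemma M_le (hn : 2 ≤ n) {g : K → Perm (Fin n)} (hg : Mix2 g) (x y : Fin n × Fin n) :
    ∑ v, e g x v * e g y v ≤ (if x = y then ∑ v, e g x v else 0) +
      (1 + 1 / (n : ℝ)) * Fintype.card K / (n * (n - 1)) := by
  have hn' : (2 : ℝ) ≤ n := by exact_mod_cast hn
  have hpos : (0 : ℝ) < n * (n - 1) := by nlinarith
  have hc : (0 : ℝ) ≤ (1 + 1 / (n : ℝ)) * Fintype.card K / (n * (n - 1)) := by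
    have : (0 : ℝ) ≤ 1 / (n : ℝ) := by positivity
    exact div_nonneg (mul_nonneg (by linarith) (Nat.cast_nonneg _)) hpos.le
  by_cases hxy : x = y
  · subst hxy
    rw [if_pos rfl]
    have : ∑ v, e g x v * e g x v = ∑ v, e g x v := by
      refine Finset.sum_congr rfl fun v _ => ?_
      unfold e; split_ifs <;> norm_num
    linarith
  · rw [if_neg hxy, zero_add]
    by_cases h1 : x.1 = y.1
    · have h2 : x.2 ≠ y.2 := fun h => hxy (Prod.ext h1 h)
      have : ∑ v, e g x v * e g y v = 0 := by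
        refine Finset.sum_eq_zero fun v _ => ?_
        rw [e_mul, if_neg]
        rintro ⟨h3, h4⟩
        rw [h1, ← h4] at h3
        exact h2 ((g v).injective h3)
      rw [this]; exact hc
    · by_cases h2 : x.2 = y.2
      · have : ∑ v, e g x v * e g y v = 0 := by
          refine Finset.sum_eq_zero fun v _ => ?_
          rw [e_mul, if_neg]
          rintro ⟨h3, h4⟩
          rw [h2, h4] at h3
          exact h1 h3.symm
        rw [this]; exact hc
      · exact (N2 hn hg x y h1 h2).2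

omit [Fintype K] in
/-- membership in the support of the conjugate as a sum -/
lemma mem_conj (g : K → Perm (Fin n)) (r : Perm (Fin n)) (q : Fin n) (v : K) :
    (if q ∈ (g v * r * (g v)⁻¹).support then (1 : ℝ) else 0) =
      ∑ b ∈ r.support, e g (q, b) v := by
  classical
  have h1 : q ∈ (g v * r * (g v)⁻¹).support ↔ (g v)⁻¹ q ∈ r.support := by
    rw [Perm.mem_support, Perm.mem_support]
    simp only [Perm.mul_apply]
    rw [not_iff_not]
    constructor
    · intro h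
      rw [Perm.eq_inv_iff_eq, h]
    · intro h
      rw [h, app_inv]
  have h2 : ∀ b ∈ r.support, e g (q, b) v = if (g v)⁻¹ q = b then 1 else 0 := by
    intro b _
    unfold e
    simp only
    congr 1
    rw [Perm.inv_eq_iff_eq]
    exact propext eq_comm
  rw [Finset.sum_congr rfl h2, Finset.sum_ite_eq]
  by_cases h : q ∈ (g v * r * (g v)⁻¹).support
  · rw [if_pos h, if_pos (h1.mp h)]
  · rw [if_neg h, if_neg (fun h3 => h (h1.mpr h3))]

lemma I_eq (g : K → Perm (Fin n)) (s r : Perm (Fin n)) (v : K) :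
    ((s.support ∩ (g v * r * (g v)⁻¹).support).card : ℝ) =
      ∑ x ∈ s.support ×ˢ r.support, e g x v := by
  classical
  rw [Finset.sum_product, ← Finset.filter_mem_eq_inter, Finset.card_filter]
  push_cast
  exact Finset.sum_congr rfl fun q _ => mem_conj g r q v

lemma D_eq (g : K → Perm (Fin n)) (s r : Perm (Fin n)) (v : K) :
    (((s.support ∩ (g v * r * (g v)⁻¹).support).filter
      (fun q => ¬ s⁻¹ q ∉ (g v * r * (g v)⁻¹).support)).card : ℝ) =
      ∑ q ∈ s.support, ∑ b ∈ r.support, ∑ b' ∈ r.support, e g (q, b) v * e g (s⁻¹ q, b') v := by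
  classical
  rw [← Finset.filter_mem_eq_inter, Finset.filter_filter, Finset.card_filter]
  push_cast
  refine Finset.sum_congr rfl fun q _ => ?_
  rw [← Finset.sum_mul_sum, ← mem_conj, ← mem_conj]
  by_cases h1 : q ∈ (g v * r * (g v)⁻¹).support
  · by_cases h2 : s⁻¹ q ∈ (g v * r * (g v)⁻¹).support
    · rw [if_pos ⟨h1, not_not.mpr h2⟩, if_pos h1, if_pos h2, mul_one]
    · rw [if_neg (fun h => h2 (not_not.mp h.2)), if_pos h1, if_neg h2, mul_zero]
  · rw [if_neg (fun h => h1 h.1), if_neg h1, zero_mul]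

lemma c2_le {n k : ℝ} (hn : 100 ≤ n) (hk : 0 < k) :
    (1 + 1 / n) * k / (n * (n - 1)) * n ^ 2 ≤ (1 + 3 / n) * k := by
  have hn0 : 0 < n := by linarith
  have hn1 : 0 < n - 1 := by linarith
  have e1 : (1 + 1 / n) * k / (n * (n - 1)) * n ^ 2 = k * ((n + 1) / (n - 1)) := by
    field_simp
  rw [e1, mul_comm]
  refine mul_le_mul_of_nonneg_right ?_ hk.le
  rw [div_le_iff₀ hn1]
  have e2 : (1 + 3 / n) * (n - 1) = n + 2 - 3 / n := by field_simp; ring
  rw [e2]
  have : 3 / n ≤ 1 := by rw [div_le_one hn0]; linarith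
  linarith

lemma num {n k μ ρ S1 S2 S3 c2 : ℝ} (hn : 100 ≤ n) (hk : 0 < k) (hμ : 1000 ≤ μ)
    (hμn : 10 * μ ≤ n) (hρ : 10 * ρ ≤ n) (hc20 : 0 ≤ c2)
    (hc2n : c2 * n ^ 2 ≤ (1 + 3 / n) * k)
    (h1lo : (1 - 1 / n) * k * μ ≤ S1) (h1hi : S1 ≤ (1 + 1 / n) * k * μ)
    (h2 : S2 ≤ S1 + (μ * n) ^ 2 * c2) (h3 : S3 ≤ μ * n * ρ * c2) :
    16 / μ ^ 2 * (S2 - 2 * μ * S1 + k * μ ^ 2) + 20 / (11 * μ) * S3 < k := by
  have hn0 : 0 < n := by linarith
  have hμ0 : 0 < μ := by linarith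
  have hinv : 1 / n ≤ 1 / 100 := one_div_le_one_div_of_le (by norm_num) hn
  have hinv0 : 0 < 1 / n := by positivity
  have hμinv : μ * (1 / n) ≤ 1 / 10 := by
    rw [mul_one_div, div_le_iff₀ hn0]; linarith
  have hμk : 0 < μ * k := mul_pos hμ0 hk
  have h4 : (μ * n) ^ 2 * c2 ≤ μ ^ 2 * ((1 + 3 / n) * k) := by
    calc (μ * n) ^ 2 * c2 = μ ^ 2 * (c2 * n ^ 2) := by ring
      _ ≤ _ := mul_le_mul_of_nonneg_left hc2n (by positivity)
  have h5 : S2 - 2 * μ * S1 + k * μ ^ 2 ≤ 2 * k * μ := by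
    have e3 : 3 / n = 3 * (1 / n) := by ring
    have h6 : μ ^ 2 * ((1 + 3 / n) * k) = μ ^ 2 * k + 3 * (μ * (1 / n)) * (μ * k) := by
      rw [e3]; ring
    have h7 : (1 - 1 / n) * k * μ * (2 * μ) = 2 * μ ^ 2 * k - 2 * (μ * (1 / n)) * (μ * k) := by
      ring
    have h10 : (1 - 1 / n) * k * μ * (2 * μ) ≤ S1 * (2 * μ) :=
      mul_le_mul_of_nonneg_right h1lo (by positivity)
    have h11 : (μ * (1 / n)) * (μ * k) ≤ 1 / 10 * (μ * k) :=
      mul_le_mul_of_nonneg_right hμinv hμk.le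
    have h12 : (1 / n) * (μ * k) ≤ 1 / 100 * (μ * k) :=
      mul_le_mul_of_nonneg_right hinv hμk.le
    have h13 : (1 + 1 / n) * k * μ = μ * k + (1 / n) * (μ * k) := by ring
    rw [h6] at h4
    rw [h7] at h10
    rw [h13] at h1hi
    nlinarith
  have h6 : S3 ≤ 11 / 90 * (k * μ) := by
    have h8 : ρ / n ≤ 1 / 10 := by rw [div_le_iff₀ hn0]; linarith
    have h9 : c2 * n ^ 2 ≤ (1 + 3 / 100) * k := by
      refine hc2n.trans (mul_le_mul_of_nonneg_right ?_ hk.le)
      have e3 : 3 / n = 3 * (1 / n) := by ring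
      rw [e3]
      linarith
    have h7 : μ * n * ρ * c2 = μ * (ρ / n) * (c2 * n ^ 2) := by field_simp
    have h10 : μ * (ρ / n) ≤ μ * (1 / 10) := mul_le_mul_of_nonneg_left h8 hμ0.le
    have h11 : μ * (ρ / n) * (c2 * n ^ 2) ≤ μ * (1 / 10) * ((1 + 3 / 100) * k) :=
      mul_le_mul h10 h9 (by positivity) (by positivity)
    rw [h7] at h3
    nlinarith
  have h7 : 16 / μ ^ 2 * (S2 - 2 * μ * S1 + k * μ ^ 2) ≤ 16 / μ ^ 2 * (2 * k * μ) :=
    mul_le_mul_of_nonneg_left h5 (by positivity)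
  have h8 : 20 / (11 * μ) * S3 ≤ 20 / (11 * μ) * (11 / 90 * (k * μ)) :=
    mul_le_mul_of_nonneg_left h6 (by positivity)
  have h9 : 16 / μ ^ 2 * (2 * k * μ) = 32 * k / μ := by field_simp; norm_num
  have h10 : 20 / (11 * μ) * (11 / 90 * (k * μ)) = 2 / 9 * k := by field_simp; norm_num
  have h11 : 32 * k / μ ≤ 32 * k / 1000 :=
    div_le_div_of_nonneg_left (by positivity) (by norm_num) hμ
  rw [h9] at h7
  rw [h10] at h8
  linarith

end SHRINK

/-- commutators with suitable conjugates have smaller support -/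
theorem SHRINK : ∀ᶠ n : ℕ in atTop, ∀ (K : Type) [Fintype K] [Nonempty K]
    (g : K → Perm (Fin n)), Mix2 g → ∀ s r : Perm (Fin n), 10 * r.support.card ≤ n →
    1000 * n ≤ s.support.card * r.support.card →
    ∃ v : K, (s.support.card * r.support.card : ℝ) / (5 * n) ≤
        (s⁻¹ * (g v * r * (g v)⁻¹)⁻¹ * s * (g v * r * (g v)⁻¹)).support.card ∧
      ((s⁻¹ * (g v * r * (g v)⁻¹)⁻¹ * s * (g v * r * (g v)⁻¹)).support.card : ℝ) ≤
        5 * (s.support.card * r.support.card) / n := by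
  classical
  filter_upwards [eventually_ge_atTop 100] with n hn K _ _ g hg s r hr hsr
  have hn2 : 2 ≤ n := by omega
  have hnR : (100 : ℝ) ≤ n := by exact_mod_cast hn
  have hn0 : (0 : ℝ) < n := by linarith
  obtain ⟨α, hα⟩ : ∃ α : ℝ, α = (s.support.card : ℝ) := ⟨_, rfl⟩
  obtain ⟨ρ, hρ⟩ : ∃ ρ : ℝ, ρ = (r.support.card : ℝ) := ⟨_, rfl⟩
  obtain ⟨k, hk⟩ : ∃ k : ℝ, k = (Fintype.card K : ℝ) := ⟨_, rfl⟩
  have hk0 : 0 < k := by rw [hk]; exact_mod_cast Fintype.card_pos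
  have hα0 : 0 ≤ α := by rw [hα]; exact Nat.cast_nonneg _
  have hρ0 : 0 ≤ ρ := by rw [hρ]; exact Nat.cast_nonneg _
  have hr' : 10 * ρ ≤ n := by rw [hρ]; exact_mod_cast hr
  have hsr' : 1000 * (n : ℝ) ≤ α * ρ := by rw [hα, hρ]; exact_mod_cast hsr
  have hαn : α ≤ n := by
    rw [hα]
    have := Finset.card_le_univ s.support
    rw [Fintype.card_fin] at this
    exact_mod_cast this
  obtain ⟨μ, hμ⟩ : ∃ μ : ℝ, μ = α * ρ / n := ⟨_, rfl⟩
  have hμ1 : 1000 ≤ μ := by rw [hμ, le_div_iff₀ hn0]; exact hsr'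
  have hμ0 : 0 < μ := by linarith
  have hμn : 10 * μ ≤ n := by
    rw [hμ, ← mul_div_assoc, div_le_iff₀ hn0]
    nlinarith
  have hαρ : α * ρ = μ * n := by rw [hμ, div_mul_cancel₀ _ hn0.ne']
  obtain ⟨c2, hc2⟩ : ∃ c2 : ℝ, c2 = (1 + 1 / (n : ℝ)) * k / (n * (n - 1)) := ⟨_, rfl⟩
  have hn1 : (0 : ℝ) < n - 1 := by linarith
  have hc20 : 0 ≤ c2 := by rw [hc2]; positivity
  have hc2n : c2 * (n : ℝ) ^ 2 ≤ (1 + 3 / (n : ℝ)) * k := by
    rw [hc2]; exact SHRINK.c2_le hnR hk0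
  obtain ⟨P, hP⟩ : ∃ P, P = s.support ×ˢ r.support := ⟨_, rfl⟩
  have hPcard : (P.card : ℝ) = μ * n := by
    rw [hP, card_product]; push_cast; rw [← hα, ← hρ, hαρ]
  obtain ⟨I, hI⟩ : ∃ I : K → ℝ, I = fun v => ∑ x ∈ P, SHRINK.e g x v := ⟨_, rfl⟩
  obtain ⟨D, hD⟩ : ∃ D : K → ℝ, D = fun v => ∑ q ∈ s.support, ∑ b ∈ r.support,
    ∑ b' ∈ r.support, SHRINK.e g (q, b) v * SHRINK.e g (s⁻¹ q, b') v := ⟨_, rfl⟩
  have hM : ∀ x y : Fin n × Fin n, ∑ v, SHRINK.e g x v * SHRINK.e g y v ≤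
      (if x = y then ∑ v, SHRINK.e g x v else 0) + c2 := by
    intro x y
    have := SHRINK.M_le hn2 hg x y
    rwa [← hk, ← hc2] at this
  -- first moment
  have hS1 : ∑ v, I v = ∑ x ∈ P, ∑ v, SHRINK.e g x v := by
    rw [hI, Finset.sum_comm]
  have hS1lo : (1 - 1 / (n : ℝ)) * k * μ ≤ ∑ v, I v := by
    rw [hS1]
    have h3 := Finset.card_nsmul_le_sum P _ _ (fun x _ => (SHRINK.N1 hn2 hg x).1)
    rw [nsmul_eq_mul, hPcard, ← hk] at h3
    refine le_trans (le_of_eq ?_) h3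
    rw [mul_div_assoc', mul_assoc μ, mul_div_assoc, mul_div_cancel_left₀ _ hn0.ne']
    ring
  have hS1hi : ∑ v, I v ≤ (1 + 1 / (n : ℝ)) * k * μ := by
    rw [hS1]
    have h3 := Finset.sum_le_card_nsmul P _ _ (fun x _ => (SHRINK.N1 hn2 hg x).2)
    rw [nsmul_eq_mul, hPcard, ← hk] at h3
    refine le_trans h3 (le_of_eq ?_)
    rw [mul_div_assoc', mul_assoc μ, mul_div_assoc, mul_div_cancel_left₀ _ hn0.ne']
    ring
  -- second moment
  have hS2 : ∑ v, (I v) ^ 2 ≤ ∑ v, I v + (μ * n) ^ 2 * c2 := by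
    have e1 : ∑ v, (I v) ^ 2 = ∑ x ∈ P, ∑ y ∈ P, ∑ v, SHRINK.e g x v * SHRINK.e g y v := by
      have : ∀ v, (I v) ^ 2 = ∑ x ∈ P, ∑ y ∈ P, SHRINK.e g x v * SHRINK.e g y v := by
        intro v
        rw [hI, sq, Finset.sum_mul_sum]
      rw [Finset.sum_congr rfl fun v _ => this v, Finset.sum_comm]
      refine Finset.sum_congr rfl fun x _ => ?_
      rw [Finset.sum_comm]
    rw [e1]
    calc ∑ x ∈ P, ∑ y ∈ P, ∑ v, SHRINK.e g x v * SHRINK.e g y v
        ≤ ∑ x ∈ P, ∑ y ∈ P, ((if x = y then ∑ v, SHRINK.e g x v else 0) + c2) :=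
          Finset.sum_le_sum fun x _ => Finset.sum_le_sum fun y _ => hM x y
      _ = ∑ x ∈ P, (∑ v, SHRINK.e g x v + P.card * c2) := by
          refine Finset.sum_congr rfl fun x hx => ?_
          rw [Finset.sum_add_distrib, Finset.sum_ite_eq, if_pos hx, Finset.sum_const,
            nsmul_eq_mul]
      _ = ∑ v, I v + (μ * n) ^ 2 * c2 := by
          rw [Finset.sum_add_distrib, Finset.sum_const, nsmul_eq_mul, hPcard, hS1]
          ring
  -- first moment of `D`
  have hS3 : ∑ v, D v ≤ μ * n * ρ * c2 := by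
    have e1 : ∑ v, D v = ∑ q ∈ s.support, ∑ b ∈ r.support, ∑ b' ∈ r.support,
        ∑ v, SHRINK.e g (q, b) v * SHRINK.e g (s⁻¹ q, b') v := by
      rw [hD, Finset.sum_comm]
      refine Finset.sum_congr rfl fun q _ => ?_
      rw [Finset.sum_comm]
      refine Finset.sum_congr rfl fun b _ => ?_
      rw [Finset.sum_comm]
    rw [e1]
    calc ∑ q ∈ s.support, ∑ b ∈ r.support, ∑ b' ∈ r.support,
        ∑ v, SHRINK.e g (q, b) v * SHRINK.e g (s⁻¹ q, b') v
        ≤ ∑ _q ∈ s.support, ∑ _b ∈ r.support, ∑ _b' ∈ r.support, c2 := by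
          refine Finset.sum_le_sum fun q hq => Finset.sum_le_sum fun b _ =>
            Finset.sum_le_sum fun b' _ => ?_
          have h1 : ((q, b) : Fin n × Fin n) ≠ (s⁻¹ q, b') := by
            intro h
            have h2 : q = s⁻¹ q := congrArg Prod.fst h
            rw [Perm.mem_support] at hq
            exact hq ((Perm.eq_inv_iff_eq.mp h2))
          have h2 := hM (q, b) (s⁻¹ q, b')
          rw [if_neg h1, zero_add] at h2
          exact h2
      _ = μ * n * ρ * c2 := by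
          rw [← hαρ, hα, hρ]
          simp only [Finset.sum_const, nsmul_eq_mul]
          ring
  -- choose `v`
  have hsum : ∑ v, (16 / μ ^ 2 * (I v - μ) ^ 2 + 20 / (11 * μ) * D v) < ∑ _v : K, (1 : ℝ) := by
    have hRHS : ∑ _v : K, (1 : ℝ) = k := by
      rw [Finset.sum_const, nsmul_eq_mul, mul_one, card_univ, hk]
    rw [hRHS, Finset.sum_add_distrib, ← Finset.mul_sum, ← Finset.mul_sum]
    have e1 : ∑ v, (I v - μ) ^ 2 = ∑ v, (I v) ^ 2 - 2 * μ * ∑ v, I v + k * μ ^ 2 := by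
      have : ∀ v, (I v - μ) ^ 2 = (I v) ^ 2 - 2 * μ * I v + μ ^ 2 := fun v => by ring
      rw [Finset.sum_congr rfl fun v _ => this v, Finset.sum_add_distrib,
        Finset.sum_sub_distrib, ← Finset.mul_sum, Finset.sum_const, nsmul_eq_mul, card_univ, hk]
    rw [e1]
    exact SHRINK.num hnR hk0 hμ1 hμn hr' hc20 hc2n hS1lo hS1hi hS2 hS3
  obtain ⟨v, _, hv⟩ := Finset.exists_lt_of_sum_lt hsum
  refine ⟨v, ?_⟩
  have hIv : ((s.support ∩ (g v * r * (g v)⁻¹).support).card : ℝ) = I v := by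
    rw [SHRINK.I_eq g s r v, hI, hP]
  have hDv : (((s.support ∩ (g v * r * (g v)⁻¹).support).filter
      (fun q => ¬ s⁻¹ q ∉ (g v * r * (g v)⁻¹).support)).card : ℝ) = D v := by
    rw [SHRINK.D_eq g s r v, hD]
  have hD0 : 0 ≤ D v := by
    rw [← hDv]
    exact Nat.cast_nonneg _
  have hsq0 : 0 ≤ 16 / μ ^ 2 * (I v - μ) ^ 2 := by positivity
  have hDl0 : 0 ≤ 20 / (11 * μ) * D v := mul_nonneg (by positivity) hD0
  have hv1 : 16 / μ ^ 2 * (I v - μ) ^ 2 < 1 := by linarith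
  have hv2 : 20 / (11 * μ) * D v < 1 := by linarith
  have hv3 : (I v - μ) ^ 2 < (μ / 4) ^ 2 := by
    rw [div_mul_eq_mul_div, div_lt_one (by positivity)] at hv1
    nlinarith
  have hv4 : |I v - μ| < μ / 4 := abs_lt_of_sq_lt_sq hv3 (by positivity)
  rw [abs_lt] at hv4
  have hv5 : D v < 11 / 20 * μ := by
    rw [div_mul_eq_mul_div, div_lt_one (by positivity)] at hv2
    linarith
  -- number of good points
  have hsplit := Finset.card_filter_add_card_filter_not
    (s := s.support ∩ (g v * r * (g v)⁻¹).support)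
    (fun q => s⁻¹ q ∉ (g v * r * (g v)⁻¹).support)
  have hsplit' : (((s.support ∩ (g v * r * (g v)⁻¹).support).filter
      (fun q => s⁻¹ q ∉ (g v * r * (g v)⁻¹).support)).card : ℝ) + D v = I v := by
    rw [← hIv, ← hDv]
    exact_mod_cast hsplit
  have hlow' : I v - D v ≤
      ((s⁻¹ * (g v * r * (g v)⁻¹)⁻¹ * s * (g v * r * (g v)⁻¹)).support.card : ℝ) := by
    have : (((s.support ∩ (g v * r * (g v)⁻¹).support).filter
      (fun q => s⁻¹ q ∉ (g v * r * (g v)⁻¹).support)).card : ℝ) ≤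
      ((s⁻¹ * (g v * r * (g v)⁻¹)⁻¹ * s * (g v * r * (g v)⁻¹)).support.card : ℝ) := by
      exact_mod_cast SHRINK.comm_lower s (g v * r * (g v)⁻¹)
    linarith
  have hup' : ((s⁻¹ * (g v * r * (g v)⁻¹)⁻¹ * s * (g v * r * (g v)⁻¹)).support.card : ℝ) ≤
      3 * I v := by
    rw [← hIv]; exact_mod_cast SHRINK.comm_upper s (g v * r * (g v)⁻¹)
  rw [← hα, ← hρ]
  constructor
  · have e1 : α * ρ / (5 * n) = μ / 5 := by
      rw [hμ, div_div, mul_comm (5 : ℝ)]
    rw [e1]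
    linarith
  · have e1 : 5 * (α * ρ) / n = 5 * μ := by rw [hμ, mul_div_assoc]
    rw [e1]
    linarith

end DM852
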